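import Pool.Agent.MP_c69980_ag.H43.Spec4

/-!
Clearing denominators in the algebraic identities.
-/

set_option autoImplicit false

namespace Pool.Agent.MP_c69980_ag.H43

open MvPolynomial H60 Finset Filter Topology Metric Real

section Alg
variable {V : Type} [CommRing V]

/-- Elements that fall into `j` after multiplication by a denominator. -/
def clrJ (S : Subring V) (φ : V →+* ℂ) (u : V) (j : Set V) (z : ℂ) : Prop :=
  ∃ x ∈ S, φ x ≠ 0 ∧ ∃ N : ℕ, ∃ y ∈ j, φ x * φ u ^ N * z = φ y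

variable {S : Subring V} {φ : V →+* ℂ} {u : V} {j : Ideal V} {z z' a : ℂ} {d : V →+ V} {D : Der}

lemma clr_of {y : V} (h : y ∈ j) : clrJ S φ u j (φ y) :=
  ⟨1, one_mem _, by simp, 0, y, h, by simp⟩

lemma clr_add (h : clrJ S φ u j z) (h' : clrJ S φ u j z') : clrJ S φ u j (z + z') := by
  obtain ⟨x, a1, a2, N, y, a3, a4⟩ := h
  obtain ⟨x', b1, b2, N', y', b3, b4⟩ := h'
  refine ⟨x * x', mul_mem a1 b1, by rw [map_mul]; exact mul_ne_zero a2 b2, N + N',
    x' * u ^ N' * y + x * u ^ N * y', j.add_mem (j.mul_mem_left _ a3) (j.mul_mem_left _ b3), ?_⟩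
  simp only [map_mul, map_add, map_pow, ← a4, ← b4]
  ring

lemma clr_mul (h : clrJ S φ u (⊤ : Ideal V) a) (h' : clrJ S φ u j z) : clrJ S φ u j (a * z) := by
  obtain ⟨x, a1, a2, N, y, -, a4⟩ := h
  obtain ⟨x', b1, b2, N', y', b3, b4⟩ := h'
  refine ⟨x * x', mul_mem a1 b1, by rw [map_mul]; exact mul_ne_zero a2 b2, N + N',
    y * y', j.mul_mem_left _ b3, ?_⟩
  simp only [map_mul, ← a4, ← b4]
  ring

lemma clr_zero : clrJ S φ u j 0 := by simpa using clr_of (S := S) (φ := φ) (u := u) j.zero_mem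

lemma clr_sum {ι : Type} (s : Finset ι) {f : ι → ℂ} (h : ∀ i ∈ s, clrJ S φ u j (f i)) :
    clrJ S φ u j (∑ i ∈ s, f i) :=
  Finset.sum_induction _ _ (fun _ _ => clr_add) clr_zero h

/-- The ring of fractions with admissible denominators. -/
def clrO (S : Subring V) (φ : V →+* ℂ) (u : V) : Subring ℂ where
  carrier := {z | clrJ S φ u (⊤ : Ideal V) z}
  mul_mem' := clr_mul
  one_mem' := by simpa using clr_of (S := S) (φ := φ) (u := u) (j := ⊤) (y := 1) trivial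
  add_mem' := clr_add
  zero_mem' := clr_zero
  neg_mem' := fun {z} h => by
    simpa using clr_mul (clr_of (S := S) (φ := φ) (u := u) (j := ⊤) (y := -1) trivial) h

lemma clr_ofO (y : V) : φ y ∈ clrO S φ u := clr_of (j := ⊤) trivial

lemma clr_der (hD : ∀ x, D (φ x) = φ (d x)) (h : z ∈ clrO S φ u) :
    D z ∈ clrO S φ u := by
  obtain ⟨x, a1, a2, N, y, -, a4⟩ := h
  refine ⟨x * x, mul_mem a1 a1, by rw [map_mul]; exact mul_ne_zero a2 a2, N + N,
    x * u ^ N * d y - d (x * u ^ N) * y, trivial, ?_⟩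
  have e : φ x * φ u ^ N = φ (x * u ^ N) := by rw [map_mul, map_pow]
  rw [e] at a4
  have h1 := congrArg D a4
  rw [Derivation.leibniz, hD, hD, smul_eq_mul, smul_eq_mul] at h1
  rw [map_sub, map_mul φ (x * u ^ N), map_mul φ (d _), ← h1, ← a4, ← e, map_mul]
  ring

lemma clr_inv {a : V} (h : a ∣ u) (h0 : φ a ≠ 0) : (φ a)⁻¹ ∈ clrO S φ u := by
  obtain ⟨b, rfl⟩ := h
  refine ⟨1, one_mem _, by simp, 1, b, trivial, ?_⟩
  rw [map_one, map_mul]
  field_simp

lemma clr_frac {c : ℂ} (h : c ∈ Subfield.closure (φ '' S)) : clrJ S φ 1 S c := by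
  obtain ⟨y, hy, z, hz, rfl⟩ := Subfield.mem_closure_iff.1 h
  rw [← Subring.coe_map, Subring.closure_eq] at hy hz
  obtain ⟨a, ha, rfl⟩ := hy
  obtain ⟨b, hb, rfl⟩ := hz
  by_cases e : φ b = 0
  · exact ⟨1, one_mem _, by simp, 0, 0, zero_mem S, by simp [e]⟩
  · exact ⟨b, hb, e, 0, a, ha, by field_simp⟩

lemma clr_KK {c : ℂ} (h : c ∈ Subfield.closure (φ '' S)) : c ∈ clrO S φ u := by
  obtain ⟨x, a1, a2, N, y, -, a4⟩ := clr_frac h
  exact ⟨x, a1, a2, 0, y, trivial, by simpa using a4⟩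

lemma clr_common {ι : Type} (T : Finset ι) {j : Set V} (h1 : ∀ a ∈ S, ∀ y ∈ j, a * y ∈ j)
    (h2 : ∀ N : ℕ, ∀ y ∈ j, u ^ N * y ∈ j) {f : ι → ℂ} (h : ∀ i ∈ T, clrJ S φ u j (f i)) :
    ∃ x ∈ S, φ x ≠ 0 ∧ ∃ N : ℕ, ∀ i ∈ T, ∃ y ∈ j, φ x * φ u ^ N * f i = φ y := by
  classical
  induction T using Finset.induction_on with
  | empty => exact ⟨1, one_mem _, by simp, 0, by simp⟩
  | insert i T _ ih =>
    obtain ⟨x, a1, a2, N, a3⟩ := ih fun i hi => h i (mem_insert_of_mem hi)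
    obtain ⟨x', b1, b2, N', y', b3, b4⟩ := h i (mem_insert_self _ _)
    refine ⟨x * x', mul_mem a1 b1, by rw [map_mul]; exact mul_ne_zero a2 b2, N + N',
      fun i' hi => ?_⟩
    rcases mem_insert.1 hi with rfl | hi
    · refine ⟨x * (u ^ N * y'), h1 _ a1 _ (h2 _ _ b3), ?_⟩
      simp only [map_mul, map_pow, ← b4]
      ring
    · obtain ⟨y, c1, c2⟩ := a3 i' hi
      refine ⟨x' * (u ^ N' * y), h1 _ b1 _ (h2 _ _ c1), ?_⟩
      simp only [map_mul, map_pow, ← c2]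
      ring

lemma clr_it (hD : ∀ x, D (φ x) = φ (d x)) (n : ℕ) (x : V) : D^[n] (φ x) = φ (d^[n] x) := by
  induction n with
  | zero => rfl
  | succ n ih => rw [Function.iterate_succ_apply', Function.iterate_succ_apply', ih, hD]

lemma clr_it_add (n : ℕ) (x y : ℂ) : D^[n] (x + y) = D^[n] x + D^[n] y := by
  induction n with
  | zero => rfl
  | succ n ih => simp only [Function.iterate_succ_apply', ih, map_add]

lemma clr_leib (hD : ∀ x, D (φ x) = φ (d x)) (n : ℕ) : ∀ a ∈ clrO S φ u, ∀ z : ℂ,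
    (∀ i ≤ n, clrJ S φ u j (D^[i] z)) → clrJ S φ u j (D^[n] (a * z)) := by
  induction n with
  | zero => exact fun a ha z h => clr_mul ha (h 0 le_rfl)
  | succ n ih =>
    intro a ha z h
    rw [Function.iterate_succ_apply, Derivation.leibniz, smul_eq_mul, smul_eq_mul, clr_it_add,
      mul_comm z]
    exact clr_add (ih a ha _ fun i hi => h (i + 1) (by omega))
      (ih _ (clr_der hD ha) _ fun i hi => h i (by omega))

lemma clr_dpow (hd : Leib d) (x : V) (m : ℕ) : d (x ^ (m + 1)) = (m + 1) * d x * x ^ m := by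
  induction m with
  | zero => simp
  | succ m ih =>
    rw [pow_succ, hd, ih]
    push_cast
    ring

lemma clr_pow (hd : Leib d) (x e : V) (n : ℕ) : ∀ m, n < m → ∀ a z : V,
    (∀ i ≤ n, x * e * d^[i] z ∈ j) → e * d^[n] (a * x ^ m * z) ∈ j := by
  induction n with
  | zero =>
    intro m hm a z h
    obtain ⟨m, rfl⟩ : ∃ m', m = m' + 1 := ⟨m - 1, by omega⟩
    have := j.mul_mem_left (a * x ^ m) (h 0 le_rfl)
    convert this using 1
    simp only [Function.iterate_zero, id]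
    ring
  | succ n ih =>
    intro m hm a z h
    obtain ⟨m, rfl⟩ : ∃ m', m = m' + 1 := ⟨m - 1, by omega⟩
    have e1 : d (a * x ^ (m + 1) * z) =
        (d a * x + a * ((m + 1) * d x)) * x ^ m * z + a * x * x ^ m * d z := by
      rw [hd, hd, clr_dpow hd]
      ring
    rw [Function.iterate_succ_apply, e1, it_add, mul_add]
    exact j.add_mem (ih m (by omega) _ _ fun i hi => h i (by omega))
      (ih m (by omega) _ _ fun i hi => h (i + 1) (by omega))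

end Alg

variable {t a M : ℕ} {w : Fin M → Option (Fin t)} {Θ : Pt t a → Fin M → ℂ} {k : Subfield ℂ}

lemma clr_hom (h : SHom) (β : Cht M t) (f : CP M t) (N : ℕ) (hN : f.totalDegree ≤ N) :
    ∃ H : PR M, H.IsHomogeneous (N * Fintype.card (CI M t)) ∧ (∀ k, Cf k f → Cf k H) ∧
      ∀ y : Fin M → ℂ, (∀ o, y (β o) ≠ 0) →
        eval y H = (∏ i : CI M t, y (β i.2)) ^ N * eval (co β y) f := by
  obtain ⟨H, h1, h2, h3⟩ := h M (CI M t) Prod.fst (fun i => β i.2) f N hN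
  exact ⟨H, h1, h2, fun y hy => h3 ℂ y fun i => hy i.2⟩

/-- Elements vanishing at all the points of `B`. -/
def clrV (A : AP w Θ k) (B : ℕ → ℂ → Prop) : Ideal A.V where
  carrier := {y | ∀ n ζ, ‖ζ‖ ≤ A.r n → B n ζ → A.evp n ζ y = 0}
  add_mem' := fun a b n ζ h1 h2 => by rw [map_add, a n ζ h1 h2, b n ζ h1 h2, add_zero]
  zero_mem' := fun _ _ _ _ => map_zero _
  smul_mem' := fun c y b n ζ h1 h2 => by rw [smul_eq_mul, map_mul, b n ζ h1 h2, mul_zero]

lemma clr_av (A : AP w Θ k) : ∃ C : ℝ, ∀ (e : ℕ) (T : Finset (Fin M →₀ ℕ))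
    (s : (Fin M →₀ ℕ) → A.V), (∀ m ∈ T, s m ∈ A.S) → (∀ m ∈ T, ∑ c, m c = e) →
    ∀ ε : ℝ, 0 < ε → ∀ᶠ n in A.U,
      av ((∑ m ∈ T, s m * ∏ c, A.θ c ^ m c : A.V).1 n) (A.r n) ≤ (C * e + ε) * A.τ n := by
  obtain ⟨C, -, hC⟩ := A.hi
  refine ⟨C, fun e T s h1 h2 ε hε => ?_⟩
  have h3 := Sm.sum A.τtop T (g := fun m n z => ‖(s m).1 n z‖) h1 ε hε
  filter_upwards [hC, h3] with n ⟨a1, a2⟩ ⟨b1, b2⟩
  have i1 := pl_int b1
  have i2 := a1.const_fun_smul (a := (e : ℝ))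
  have h4 := circleAverage_mono
    ((A.hol _ (∑ m ∈ T, s m * ∏ c, A.θ c ^ m c : A.V).2 n).int (A.r0 n) (A.rR n)) (i1.add i2)
    (fun z _ => by
      have h5 : ‖(∑ m ∈ T, s m * ∏ c, A.θ c ^ m c : A.V).1 n z‖ ≤
          (∑ m ∈ T, fun n z => ‖(s m).1 n z‖) n z * ‖Θ (A.p n z)‖ ^ e := by
        rw [← A.evp_apply, map_sum, Finset.sum_apply, Finset.sum_apply, sum_mul]
        refine (norm_sum_le _ _).trans (sum_le_sum fun m hm => ?_)
        rw [map_mul, norm_mul, map_prod, norm_prod, ← h2 m hm, ← prod_pow_eq_pow_sum]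
        refine mul_le_mul_of_nonneg_left (prod_le_prod (fun _ _ => norm_nonneg _) fun c _ => ?_)
          (norm_nonneg _)
        rw [map_pow, norm_pow]
        exact pow_le_pow_left₀ (norm_nonneg _) (norm_le_pi_norm (Θ (A.p n z)) c) _
      refine (le_max_right 0 _).trans ((posLog_le_posLog (norm_nonneg _) h5).trans
        (posLog_mul.trans ?_))
      simp)
  rw [circleAverage_add i1 i2, circleAverage_fun_smul, smul_eq_mul] at h4
  have h6 := mul_le_mul_of_nonneg_left a2 (Nat.cast_nonneg (α := ℝ) e)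
  refine h4.trans ?_
  linarith

lemma clr_deriv (A : AP w Θ k) {β : Cht M t} {f : CP M t} {N : ℕ} {H : PR M} (hH : Cf k H)
    (e : ∀ y : Fin M → ℂ, (∀ o, y (β o) ≠ 0) →
      eval y H = (∏ i : CI M t, y (β i.2)) ^ N * eval (co β y) f) {n : ℕ} {ζ : ℂ}
    (hζ : ‖ζ‖ ≤ A.r n) (h0 : ∀ o, Θ (A.p n ζ) (β o) ≠ 0)
    (h1 : eval (co β (Θ (A.p n ζ))) f = 0)
    (h2 : deriv (fun s => eval (co β (Θ (A.p n s))) f) ζ = 0) :
    A.evp n ζ (A.D (A.fe H hH)) = 0 := by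
  have hb : ζ ∈ ball (0 : ℂ) (A.R n) := mem_ball_zero_iff.2 (hζ.trans_lt (A.rR n))
  have df : ∀ x : A.V, DifferentiableAt ℂ (x.1 n) ζ := fun x =>
    (A.hol _ x.2 n).differentiableAt (isOpen_ball.mem_nhds hb)
  have dθ : ∀ c, DifferentiableAt ℂ (fun s => Θ (A.p n s) c) ζ := fun c => df (A.θ c)
  have dW : DifferentiableAt ℂ (fun s => (∏ i : CI M t, Θ (A.p n s) (β i.2)) ^ N) ζ :=
    (DifferentiableAt.fun_finsetProd fun i _ => dθ _).pow N
  have ev : ∀ᶠ s in 𝓝 ζ, ∀ o, Θ (A.p n s) (β o) ≠ 0 :=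
    eventually_all.2 fun o => (dθ _).continuousAt.eventually_ne (h0 o)
  have e1 : (A.fe H hH).1 n =ᶠ[𝓝 ζ] fun s => (∏ i : CI M t, Θ (A.p n s) (β i.2)) ^ N *
      eval (co β (Θ (A.p n s))) f := ev.mono fun s hs => (A.fe_apply H hH n s).trans (e _ hs)
  have e2 : (fun s => eval (co β (Θ (A.p n s))) f) =ᶠ[𝓝 ζ]
      fun s => (A.fe H hH).1 n s / (∏ i : CI M t, Θ (A.p n s) (β i.2)) ^ N := by
    filter_upwards [ev, e1] with s hs h
    rw [h, mul_div_cancel_left₀ _ (pow_ne_zero _ (prod_ne_zero_iff.2 fun i _ => hs _))]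
  have dg : DifferentiableAt ℂ (fun s => eval (co β (Θ (A.p n s))) f) ζ :=
    e2.differentiableAt_iff.2
      ((df _).fun_div dW (pow_ne_zero _ (prod_ne_zero_iff.2 fun i _ => h0 _)))
  rw [A.evp_apply, A.D_coe, dd_in _ hb, e1.deriv_eq, deriv_fun_mul dW dg, h1, h2]
  simp

theorem sClr (h : SHom) : SClr := by
  intro t a M w Θ k A φ D p₀ l κ hκ β hE hβ hO
  have hD := hE.der
  have n0 : ∀ o, φ (A.θ (β o)) ≠ 0 := fun o => by
    rw [hE.th]
    exact mul_ne_zero hE.l0 (hβ o).2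
  have ec : co β (Θ p₀) = co β fun c => φ (A.θ c) := by
    funext x
    simp only [co, hE.th, mul_div_mul_left _ _ hE.l0]
  have iv : ∀ o, (φ (A.θ (β o)))⁻¹ ∈ clrO A.S φ (A.ch β) := fun o =>
    clr_inv (dvd_prod_of_mem (fun o => A.θ (β o)) (mem_univ o)) (n0 o)
  have ra : ∀ z ∈ RA (A.KK φ) (co β fun c => φ (A.θ c)), z ∈ clrO A.S φ (A.ch β) :=
    RA_le (fun c hc => clr_KK hc) fun x => by
      rw [co, div_eq_mul_inv]
      exact mul_mem (clr_ofO _) (iv _)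
  have eq : eval (co β fun c => φ (A.θ c)) (dh κ.Q) =
      (φ (A.θ (β none)))⁻¹ ^ κ.e * φ (A.fe κ.Q hκ.cQ) := by
    have : eval _ (dh κ.Q) = eval (fun c => φ (A.θ c)) κ.Q / _ := eval_dh hκ.hQ β
    rw [this, A.map_fe φ hE.cst, div_eq_inv_mul, inv_pow]
  obtain ⟨o1, -, o3⟩ := hO
  rw [ec] at o1 o3
  constructor
  · obtain ⟨n, c, c1, c2⟩ := o1
    have h1 : clrJ A.S φ (A.ch β) (Ideal.span ((fun i => A.D^[i] (A.fe κ.Q hκ.cQ)) '' range n) :
        Ideal A.V) 1 := by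
      rw [← c2]
      refine clr_sum _ fun i hi => clr_mul (ra _ (c1 i)) ?_
      rw [eq]
      refine clr_leib hD i _ (pow_mem (iv _) _) _ fun i' hi' => ?_
      rw [clr_it hD]
      exact clr_of (Ideal.subset_span ⟨i', mem_coe.2 (mem_range.2 (by
        have := mem_range.1 hi; omega)), rfl⟩)
    obtain ⟨x, a1, a2, N, y, a3, a4⟩ := h1
    obtain ⟨c', rfl⟩ := (Submodule.mem_span_image_finset_iff_exists_fun' _).1 a3
    refine ⟨n, N, x, c', a1, fun hx => a2 ((hE.ker _).2 hx), (hE.ker _).1 ?_⟩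
    rw [map_sub, map_mul, map_pow, sub_eq_zero]
    exact (mul_one _).symm.trans a4
  obtain ⟨C, hC⟩ := clr_av A
  refine ⟨C * Fintype.card (CI M t), fun lam => ?_⟩
  obtain ⟨m, L, Φ, f1, f2, f3, f4, f5, f6⟩ := o3 lam
  have wO : ∀ N : ℕ, (∏ i : CI M t, φ (A.θ (β i.2))) ^ N ∈ clrO A.S φ (A.ch β) := fun N =>
    pow_mem (prod_mem fun i _ => clr_ofO _) N
  have w0 : ∀ N : ℕ, (∏ i : CI M t, φ (A.θ (β i.2))) ^ N ≠ 0 := fun N =>
    pow_ne_zero _ (prod_ne_zero_iff.2 fun i _ => n0 _)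
  have fr : ∀ f : CP M t, Cf k f → ∃ (N : ℕ) (H : PR M) (hH : Cf k H),
      (∀ y : Fin M → ℂ, (∀ o, y (β o) ≠ 0) →
        eval y H = (∏ i : CI M t, y (β i.2)) ^ N * eval (co β y) f) ∧
      ∃ b ∈ clrO A.S φ (A.ch β), eval (co β fun c => φ (A.θ c)) f = b * φ (A.fe H hH) := by
    intro f hf
    obtain ⟨H, -, h2, h3⟩ := clr_hom h β f _ le_rfl
    refine ⟨_, H, h2 k hf, h3, ((∏ i : CI M t, φ (A.θ (β i.2))) ^ f.totalDegree)⁻¹, ?_, ?_⟩
    · rw [← inv_pow, ← prod_inv_distrib]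
      exact pow_mem (prod_mem fun i _ => iv _) _
    · rw [A.map_fe φ hE.cst, h3 _ n0, inv_mul_cancel_left₀ (w0 _)]
  have gn : ∀ z ∈ gens κ β D (co β fun c => φ (A.θ c)),
      clrJ A.S φ (A.ch β) (clrV A (A.Bd κ β)) z := by
    have g2 : ∀ f ∈ κ.Jb β, clrJ A.S φ (A.ch β) (clrV A (A.Bd κ β))
        (eval (co β fun c => φ (A.θ c)) f.2 * eval (co β fun c => φ (A.θ c)) f.1) ∧
        clrJ A.S φ (A.ch β) (clrV A (A.Bd κ β))
        (eval (co β fun c => φ (A.θ c)) f.2 * D (eval (co β fun c => φ (A.θ c)) f.1)) := by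
      intro f hf
      obtain ⟨N₁, H₁, k₁, e₁, b₁, m₁, r₁⟩ := fr f.1 (hκ.cJ β f hf).1
      obtain ⟨N₂, H₂, k₂, e₂, b₂, m₂, r₂⟩ := fr f.2 (hκ.cJ β f hf).2
      have v1 : A.fe H₂ k₂ * A.fe H₁ k₁ ∈ clrV A (A.Bd κ β) := by
        intro n ζ _ ⟨q1, _, q3⟩
        rw [map_mul, A.evp_apply, A.evp_apply, A.fe_apply, A.fe_apply, e₁ _ fun o => (q1 o).2,
          e₂ _ fun o => (q1 o).2]
        rcases q3 f hf with q | q
        · rw [q]; ring
        · rw [q.1]; ring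
      have v2 : A.fe H₂ k₂ * A.D (A.fe H₁ k₁) ∈ clrV A (A.Bd κ β) := by
        intro n ζ hζ ⟨q1, _, q3⟩
        rw [map_mul]
        rcases q3 f hf with q | q
        · rw [A.evp_apply, A.fe_apply, e₂ _ fun o => (q1 o).2, q]; ring
        · rw [clr_deriv A k₁ e₁ hζ (fun o => (q1 o).2) q.1 q.2, mul_zero]
      have u1 := clr_of (S := A.S) (φ := φ) (u := A.ch β) v1
      have u2 := clr_of (S := A.S) (φ := φ) (u := A.ch β) v2
      rw [r₁, r₂, Derivation.leibniz, hD, smul_eq_mul, smul_eq_mul]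
      rw [map_mul] at u1 u2
      constructor
      · convert clr_mul (mul_mem m₁ m₂) u1 using 1
        ring
      · convert clr_add (clr_mul (mul_mem m₁ m₂) u2)
          (clr_mul (mul_mem (clr_der hD m₁) m₂) u1) using 1
        ring
    rintro z ((rfl | ⟨f, hf, rfl⟩) | ⟨f, hf, rfl⟩)
    · rw [eq]
      refine clr_mul (pow_mem (iv _) _) (clr_of fun n ζ _ hB => ?_)
      rw [A.evp_apply, A.fe_apply]
      exact hB.2.1
    · exact (g2 f hf).1
    · exact (g2 f hf).2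
  have sp : ∀ z ∈ Submodule.span (RA (A.KK φ) (co β fun c => φ (A.θ c)))
      (gens κ β D (co β fun c => φ (A.θ c))), clrJ A.S φ (A.ch β) (clrV A (A.Bd κ β)) z := by
    intro z hz
    induction hz using Submodule.span_induction with
    | mem z hz => exact gn z hz
    | zero => exact clr_zero
    | add _ _ _ _ a b => exact clr_add a b
    | smul c _ _ b => exact clr_mul (ra _ c.2) b
  obtain ⟨H, g1, g2, g3⟩ := clr_hom h β Φ m f2
  obtain ⟨x₀, x1, x2, N₀, x3⟩ := clr_common (S := A.S) (φ := φ) (u := 1) H.support (j := A.S)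
    (fun a ha y hy => mul_mem ha hy) (fun N y hy => by simpa using hy)
    (f := fun m => coeff m H) fun m _ => clr_frac (g2 _ f1 m)
  choose! s s1 s2 using x3
  obtain ⟨Φ₁, eΦ⟩ : ∃ Φ₁ : A.V, Φ₁ = ∑ m ∈ H.support, s m * ∏ c, A.θ c ^ m c := ⟨_, rfl⟩
  have p1 : φ Φ₁ = φ x₀ * (∏ i : CI M t, φ (A.θ (β i.2))) ^ m *
      eval (co β fun c => φ (A.θ c)) Φ := by
    rw [mul_assoc, ← g3 (fun c => φ (A.θ c)) n0, eval_eq', eΦ, map_sum, mul_sum]
    refine sum_congr rfl fun m hm => ?_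
    rw [map_mul, ← s2 m hm, map_prod]
    simp only [map_pow, map_one, one_pow, mul_one, mul_assoc]
  obtain ⟨x, y1, y2, N, y3⟩ := clr_common (S := A.S) (φ := φ) (u := A.ch β) (range L)
    (j := clrV A (A.Bd κ β)) (fun a _ y hy => Ideal.mul_mem_left _ _ hy)
    (fun N y hy => Ideal.mul_mem_left _ _ hy) (f := fun i => φ (A.D^[i] Φ₁)) fun i hi => by
      rw [← clr_it hD, p1]
      exact clr_leib hD i _ (mul_mem (clr_ofO _) (wO _)) _ fun i' hi' =>
        sp _ (f6 i' (by have := mem_range.1 hi; omega))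
  have y4 : ∀ i < L, x * A.ch β ^ N * A.D^[i] Φ₁ ∈ clrV A (A.Bd κ β) ⊔ A.P := by
    intro i hi
    obtain ⟨y, z1, z2⟩ := y3 i (mem_range.2 hi)
    refine Submodule.mem_sup.2 ⟨y, z1, x * A.ch β ^ N * A.D^[i] Φ₁ - y, (hE.ker _).1 ?_, by ring⟩
    rw [map_sub, map_mul, map_mul, map_pow, z2, sub_self]
  refine ⟨m, L, N, x ^ L * Φ₁, fun hP => ?_, f4, f5, fun ε hε => ?_, fun i hi K => ?_⟩
  · have := (hE.ker _).2 hP
    rw [map_mul, map_pow, p1] at this
    exact mul_ne_zero (pow_ne_zero _ y2) (mul_ne_zero (mul_ne_zero x2 (w0 _)) f3) this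
  · have := hC (m * Fintype.card (CI M t)) H.support (fun m => x ^ L * s m)
      (fun m hm => mul_mem (pow_mem y1 _) (s1 m hm)) (fun m' hm => by
        rw [← Finsupp.degree_eq_sum, Finsupp.degree_apply, ← g1.degree_eq_sum_deg_support hm])
      ε hε
    simp only [mul_assoc (x ^ L), ← mul_sum, ← eΦ] at this
    refine this.mono fun n hn => hn.trans (le_of_eq ?_)
    push_cast
    ring
  · have h1 := clr_pow A.leib x (A.ch β ^ N) i L hi 1 Φ₁ fun i' hi' => y4 i' (by omega)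
    rw [one_mul] at h1
    obtain ⟨y, z1, p, z2, z3⟩ := Submodule.mem_sup.1 h1
    filter_upwards [A.tiny p z2 K] with n hn ζ hζ hB
    have h2 := congrArg (A.evp n ζ) z3
    rw [map_add, z1 n ζ hζ hB, zero_add, map_mul, map_pow, A.evp_apply, A.evp_apply, A.evp_apply,
      A.D_iter, dd_iter _ _ _ _ (mem_ball_zero_iff.2 (hζ.trans_lt (A.rR n)))] at h2
    rw [← h2]
    exact hn ζ (by linarith [(A.num n).2.1])

end Pool.Agent.MP_c69980_ag.H43
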