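import Pool.Agent.MP_c69980_ag.H43.Spec5

/-!
Outside a hypersurface, the derivatives of discs in `U` are locally bounded.
-/

set_option autoImplicit false

namespace Pool.Agent.MP_c69980_ag.H43

open MvPolynomial H60 Finset Filter Topology Metric Real

section
variable {t a M n : ℕ} {w : Fin M → Option (Fin t)} {Θ : Pt t a → Fin M → ℂ} {K : Type} [Field K]
  [Algebra ℂ K] {U : Set (PS n)} {z : Fin n → K} {u : Fin M → K} {β : Cht M t}

/-- A bounded lift. -/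
lemma good_lift (g : GA1 w Θ) (pr : Prp w Θ) (lf : Lfe w Θ U z u) (hβ : Ch w β u) {L : ℝ}
    (hL : 0 ≤ L) : ∃ B : ℝ, 0 ≤ B ∧ ∀ y ∈ Cone U,
      (∀ x, Reg z y (co β u x) ∧ ‖vl z (co β u x) y‖ ≤ L) → ∃ p, Lf z u Θ y p ∧ ‖p‖ ≤ B ∧
        ‖Θ p‖ ≤ exp B ∧ exp (-B) ≤ ‖Θ p (β none)‖ ∧ ∀ x, vl z (co β u x) y = co β (Θ p) x := by
  obtain ⟨L₁, h1⟩ := pr.1 β L
  obtain ⟨ε, C, -, C0, hC⟩ := g.gr
  have a0 := abs_nonneg L₁
  refine ⟨|L₁| + C * (L₁ ^ 2 + 1) + C * (|L₁| + 1) + L, by positivity, fun y hy h => ?_⟩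
  obtain ⟨p', hp'⟩ := lf.ex y hy
  have c1 := lf.ch y hy p' hp' β hβ fun x => (h x).1
  obtain ⟨l, l1, l2⟩ := h1 p' c1 ((pi_norm_le_iff_of_nonneg hL).2 fun x => by
    rw [← ((lf.val y hy p' hp' β c1).2 x).2]
    exact (h x).2)
  have hp := lf.par y p' (p' - l) hp' (by simpa using l1)
  generalize p' - l = p at hp l2
  have c2 := lf.ch y hy p hp β hβ fun x => (h x).1
  have v := fun x => ((lf.val y hy p hp β c2).2 x).2
  have n1 : ‖p‖ ≤ |L₁| := l2.trans (le_abs_self _)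
  have n2 : ‖p‖ ^ 2 ≤ L₁ ^ 2 := pow_le_pow_left₀ (norm_nonneg _) l2 2
  have b1 : 0 ≤ C * (L₁ ^ 2 + 1) := by positivity
  have b2 : 0 ≤ C * (|L₁| + 1) := by positivity
  obtain ⟨-, d1, d2⟩ := hC p
  refine ⟨p, hp, by linarith, ?_, ?_, v⟩
  · refine (le_exp_log _).trans (exp_le_exp.2 ?_)
    have := mul_le_mul_of_nonneg_left (add_le_add_left n2 1) C0
    linarith
  · obtain ⟨b, -, d3⟩ := d2 none
    have e : Θ p b = co β (Θ p) (b, none) * Θ p (β none) := (div_mul_cancel₀ _ (c2 none).2).symm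
    have d4 : ‖co β (Θ p) (b, none)‖ ≤ exp L := by
      rw [← v]
      linarith [(h (b, none)).2, add_one_le_exp L]
    rw [e, norm_mul] at d3
    have d5 := d3.trans (mul_le_mul_of_nonneg_right d4 (norm_nonneg _))
    rw [← div_le_iff₀' (exp_pos _), ← exp_sub] at d5
    refine (exp_le_exp.2 ?_).trans d5
    have := mul_le_mul_of_nonneg_left (add_le_add_left n1 1) C0
    linarith

lemma good_low {y : Fin n → ℂ} {p : Pt t a} {L B : ℝ} (hy : On z y) (hβ : Ch w β u) (B0 : 0 ≤ B)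
    (h1 : ∀ x, Reg z y (co β u x)) (h2 : exp (-B) ≤ ‖Θ p (β none)‖)
    (h3 : ∀ x, vl z (co β u x) y = co β (Θ p) x) {F : PR M} {d D : ℕ} (hF : F.IsHomogeneous d)
    (hd : d ≤ D) (h4 : aeval u F ≠ 0)
    (h5 : aeval (co β u) (dh F : CP M t) ≠ 0 → exp (-L) ≤ ‖vl z (aeval (co β u) (dh F : CP M t)) y‖) :
    exp (-(L + D * B)) ≤ ‖eval (Θ p) F‖ := by
  have n0 : Θ p (β none) ≠ 0 := norm_pos_iff.1 ((exp_pos _).trans_le h2)
  have h6 := h5 (by rw [eval_dh hF]; exact div_ne_zero h4 (pow_ne_zero _ (hβ none).2))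
  have e : eval _ (dh F) = eval (Θ p) F / _ := eval_dh (y := Θ p) hF β
  rw [(vl_aeval hy h1 _).2, funext h3, e, norm_div, norm_pow,
    le_div_iff₀ (pow_pos (norm_pos_iff.2 n0) _)] at h6
  refine le_trans ?_ ((mul_le_mul_of_nonneg_left
    (pow_le_pow_left₀ (exp_pos _).le h2 d) (exp_pos _).le).trans h6)
  rw [← exp_nat_mul, ← exp_add, exp_le_exp]
  have : (d : ℝ) * B ≤ D * B := mul_le_mul_of_nonneg_right (Nat.cast_le.2 hd) B0
  linarith

end

theorem sGood (h1 : SKl) (h2 : SKalg) (h3 : SLfe) (h4 : SDerb) (h5 : SGdisc) (h6 : SCore)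
    (h7 : SThree) : SGood := by
  intro t a M n w Θ PP K _ _ U z u g pr lt gd mp hG j
  classical
  have hz := mp.gen
  obtain ⟨κ, J, γ, E, γ₀, b₀, Q₀, kl⟩ := h1 _ _ _ _ w Θ PP K U z u gd mp hG
  obtain ⟨k, k0, gk, hκ, hK⟩ := (gd.and (h2 _ _ _ _ w Θ PP K U z u κ J γ E γ₀ b₀ Q₀ gd mp kl)).exists
  have lf := h3 _ _ _ _ w Θ K U z u g lt mp
  have db := h4 _ _ _ _ w Θ PP K U z u g.toGA1 gk.der mp lf
  obtain ⟨β, hβ⟩ := mp.ch
  obtain ⟨⟨e₀, Q1⟩, Q2⟩ := kl.Q0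
  by_contra hn
  push Not at hn
  have : Countable (MvPolynomial (Fin M) k) :=
    Function.Injective.countable (f := fun P => (AddMonoidAlgebra.coeff P : (Fin M →₀ ℕ) →₀ k))
      AddMonoidAlgebra.coeff_injective
  obtain ⟨δ, hδ⟩ := exists_surjective_nat (MvPolynomial (Fin M) k)
  have step : ∀ m : ℕ, ∃ (L : ℝ) (p : ℂ → Pt t a) (G : ℂ → ℂ),
      DifferentiableOn ℂ p (ball 0 (rad3 m L)) ∧ sc p 1 = 1 ∧ ‖p 0‖ ≤ L ∧
      GF w Θ κ (rad3 m L) p G ∧ exp (-L) ≤ ‖G 0‖ ∧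
      (∀ (F : PR M) (d : ℕ), F.IsHomogeneous d → aeval u F = 0 →
        ∀ s ∈ ball (0 : ℂ) (rad3 m L), eval (Θ (p s)) F = 0) ∧
      ∀ (i : Fin (m + 1)) (d : ℕ), (map k.subtype (δ i)).IsHomogeneous d →
        aeval u (map k.subtype (δ i)) ≠ 0 → exp (-L) ≤ ‖eval (Θ (p 0)) (map k.subtype (δ i))‖ := by
    intro m
    obtain ⟨H, d, H1, H2, H3⟩ := (Gn.form Q1 Q2).and ((Gn.val hz γ₀).and
      ((Gn.all fun x => Gn.val hz (co β u x)).and ((Gn.val hz (aeval (co β u) (dh κ.Q))).and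
      ((Gn.all fun i : Fin (m + 1) => Gn.val hz (aeval (co β u) (dh (map k.subtype (δ i))))).and
      (Gn.all fun i => db (z i / z j))))))
    obtain ⟨y₀, p1, p2⟩ := hn H d H1 H2
    obtain ⟨L, L0, hL⟩ := ((eventually_gt_atTop 0).and (H3 y₀ p1)).exists
    obtain ⟨ε, ε0, hL⟩ := Metric.eventually_nhds_iff.1 hL
    obtain ⟨B, B0, hB⟩ := good_lift g.toGA1 pr lf hβ L0.le
    obtain ⟨D, D1, D2⟩ : ∃ D : ℕ, κ.e ≤ D ∧
        ∀ i : Fin (m + 1), (map k.subtype (δ i)).totalDegree ≤ D :=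
      ⟨κ.e + ∑ i : Fin (m + 1), (map k.subtype (δ i)).totalDegree, Nat.le_add_right _ _, fun i =>
        (single_le_sum (f := fun i : Fin (m + 1) => (map k.subtype (δ i)).totalDegree)
          (fun _ _ => Nat.zero_le _) (mem_univ i)).trans (Nat.le_add_left _ _)⟩
    have DB : 0 ≤ (D : ℝ) * B := by positivity
    refine ⟨L + D * B + L + B, ?_⟩
    obtain ⟨R, hR⟩ : ∃ R, R = rad3 m (L + D * B + L + B) := ⟨_, rfl⟩
    have R1 : 1 < R := by
      rw [hR, rad3]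
      exact lt_add_of_pos_left _ (by positivity)
    rw [← hR]
    have R0 : 0 < R := by linarith
    obtain ⟨x, x1, x4, x2, x3⟩ := not_good2 p2 ε0 L R0
    have m0 := mem_ball_self (x := (0 : ℂ)) R0
    have n0 := isOpen_ball.mem_nhds m0
    have on := Cone.on hz (x1.2 0 m0)
    obtain ⟨a1, a2, a3, a4, a5, a6⟩ := hL ((dist_eq_norm _ y₀).symm ▸ x2) on
    obtain ⟨p₀, b1, b2, b3, b4, b5⟩ := hB _ (x1.2 0 m0) fun i => ⟨(a3 i).1, (a3 i).2.1⟩
    obtain ⟨q, q1, q2, q3⟩ := lf.lift R x p₀ R0 x1 b1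
    have q4 : 1 ≤ ‖deriv q 0‖ := by
      refine le_of_mul_le_mul_left (((mul_one L).trans_lt x3).le.trans
        ((pi_norm_le_iff_of_nonneg (by positivity)).2 fun i => ?_)) L0
      have d0 := x1.1.differentiableAt n0
      have d1 := hasDerivAt_pi.1 (nrm_diff d0 (x4.trans_ne one_ne_zero)).hasDerivAt i
      refine le_of_eq_of_le (congrArg norm (d1.congr_of_eventuallyEq ?_).deriv.symm)
        (a6 i _ x q R0 x1 rfl q1 q3)
      filter_upwards [n0, (differentiableAt_pi.1 d0 j).continuousAt.eventually_ne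
        (x4.trans_ne one_ne_zero)] with s h1 h2
      simpa [nrm, div_eq_inv_mul] using vl_eq (Cone.on hz (x1.2 s h1)) (isHomogeneous_X ℂ i)
        (isHomogeneous_X ℂ j) (by simpa)
    obtain ⟨ρ, r0, r1, r2⟩ := (h7 _ q R q1).2 R1 q4
    have s1 : Set.MapsTo (fun s : ℂ => ρ * s) (ball 0 R) (ball 0 R) := fun s hs => by
      rw [mem_ball_zero_iff] at hs ⊢
      rw [norm_mul, Complex.norm_real, Real.norm_of_nonneg r0.le]
      exact (mul_le_of_le_one_left (norm_nonneg _) r1).trans_lt hs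
    have s2 : DifferentiableOn ℂ (fun s : ℂ => ρ * s) (ball 0 R) := by fun_prop
    have lQ := good_low on hβ B0 (fun i => (a3 i).1) b4 b5 hκ.hQ D1 kl.ke.Qn
      fun h => (a4.2.2 h).1
    have nb : Θ p₀ b₀ ≠ 0 := fun e => by
      have := ((a3 (b₀, none)).2.2 (div_ne_zero kl.b0 (hβ none).2)).1
      rw [b5, co, e, zero_div, norm_zero] at this
      exact absurd this (not_le.2 (exp_pos _))
    obtain ⟨G, G1, G2⟩ := h5 _ _ _ _ w Θ PP K U z u κ J γ E γ₀ b₀ Q₀ g.toGA1 mp lf kl R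
      (fun s => x (ρ * s)) (fun s => q (ρ * s)) R0 ⟨x1.1.comp s2 s1, fun s hs => x1.2 _ (s1 hs)⟩
      (q1.comp s2 s1) (fun s hs => q3 _ (s1 hs)) (by simpa using a1) (by simpa using a2.1)
      (by simpa [q2] using nb)
      (by simpa [q2] using norm_pos_iff.1 ((exp_pos _).trans_le lQ))
    refine ⟨fun s => q (ρ * s), G, q1.comp s2 s1, r2, ?_, G1, ?_, fun F d hF e s hs =>
      lf.zero _ (x1.2 _ (s1 hs)) _ (q3 _ (s1 hs)) F d hF e, fun i d hF e => ?_⟩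
    · simp only [mul_zero, q2]
      linarith
    · simp only [mul_zero, q2] at G2
      rw [G2, norm_div, norm_mul, le_div_iff₀ (norm_pos_iff.2 nb)]
      refine (mul_le_mul_of_nonneg_left ((norm_le_pi_norm _ b₀).trans b3) (exp_pos _).le).trans
        (le_trans (le_of_eq ?_) (mul_le_mul lQ (a2.2.2 kl.g0).1 (exp_pos _).le (norm_nonneg _)))
      rw [← exp_add, ← exp_add]
      congr 1
      ring
    · simp only [mul_zero, q2]
      refine (exp_le_exp.2 (by linarith)).trans (good_low on hβ B0 (fun i => (a3 i).1) b4 b5 hF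
        ((hF.totalDegree fun h => e (by rw [h, map_zero])).symm.trans_le (D2 i)) e
        fun h => ((a5 i).2.2 h).1)
  choose L p G c1 c2 c3 c4 c5 c6 c7 using step
  refine h6 _ _ _ w Θ PP k κ {F | aeval u F = 0} L p G g.toGA1 gk k0 hκ hK c1 c2 c3 c4 c5
    fun F d hF cF => ⟨fun e m => c6 m F d hF e, fun e => ?_⟩
  obtain ⟨F', rfl⟩ := cf_iff.1 cF
  obtain ⟨i, rfl⟩ := hδ F'
  filter_upwards [eventually_ge_atTop i] with m hm
  exact c7 m ⟨i, by omega⟩ d hF e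

end Pool.Agent.MP_c69980_ag.H43
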