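import Pool.Agent.MP_c69980_ag.H43.Spec3

/-!
Stability under derivations, lower bounds for transcendence degrees, constants, lying over.
-/

set_option autoImplicit false

namespace Pool.Agent.MP_c69980_ag.H43

open MvPolynomial H60 Finset

lemma pres_alg {L : Subfield ℂ} {x : ℂ} (hx : x ∈ L) : IsAlgebraic L x :=
  isAlgebraic_algebraMap (⟨x, hx⟩ : L)

theorem sPres (h : SStab) : SPres := by
  intro t a M w Θ PP k F D p v G hk hT
  refine ⟨fun hv hF x hx => ?_, fun hv hF x hx => ?_, fun hv hF β hβ => ⟨?_, ?_⟩⟩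
  · obtain ⟨β, hβ⟩ := G.ch p
    have hc : ∀ i, co β (Θ p) i ∈ FL F (Θ p) := fun i => rat_FL _ _ (co_mem β _ i)
    refine (h D).1 (F ∪ Set.range (co β (Θ p))) _ (Set.union_subset (le_FL F _) ?_) ?_ x hx
      (pres_alg (FL_chart hβ F ▸ hx))
    · rintro _ ⟨i, rfl⟩
      exact hc i
    · rintro _ (hy | ⟨i, rfl⟩)
      · exact hF _ hy
      · rw [(G.tan_iff hβ).1 hT]
        exact RA_le_field le_rfl hc _ (vf_mem (G.cf β) (hk.trans (le_FL F _)) hv _ _)
  · subst hv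
    exact (h D).2.1 (F ∪ rat (Θ p)) (fun y hy => hy.elim (hF y) (tan_zero_iff.1 hT y)) x
      (pres_alg hx)
  · exact (h D).2.2 F _ _ (RA F (co β (Θ p))).toSubring (fun c hc =>
      ⟨Subalgebra.algebraMap_mem _ (⟨c, hc⟩ : F), Subalgebra.algebraMap_mem _ (⟨_, hF c hc⟩ : F)⟩)
      fun i => ⟨gen_mem _ i, by
        rw [(G.tan_iff hβ).1 hT]; exact vf_mem (G.cf β) hk hv _ _⟩
  · exact (h D).2.2 F _ _ (RA F (xc w β (Θ p))).toSubring (fun c hc =>
      ⟨Subalgebra.algebraMap_mem _ (⟨c, hc⟩ : F), Subalgebra.algebraMap_mem _ (⟨_, hF c hc⟩ : F)⟩)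
      fun i => ⟨gen_mem _ i, by
        rw [(G.tanA β D p v hβ hT).1]; exact vf_mem (G.cf β) hk hv _ _⟩

theorem sDimt (h : SDep) : SDimt := by
  intro t a M w Θ PP k F p n v D G hv hD
  cases n with
  | zero => exact ind_zero F _
  | succ m =>
    by_contra hn
    obtain ⟨c, c0, hc⟩ := h F m _ D hn fun l => (hD l).1
    have h1 := Tan.sum univ fun l _ => (hD l).2.smul (c l)
    have h2 : Tan Θ (∑ l, c l • D l) p 0 := tan_zero_iff.2 fun x hx => by
      rw [der_sum_apply]; exact hc x hx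
    exact c0 (funext (Fintype.linearIndependent_iff.1 hv c (G.tan_inj h1 h2)))

theorem sKp (h1 : SInd) (h2 : SPres) (h3 : SDimt) : SKp := by
  intro t a M w Θ PP k F D p₀ g n lam δ G C A
  have a1 : F ≤ cst (FL F (Θ p₀)) δ := fun x hx => ⟨le_FL F _ hx, fun l => A.kill l x hx⟩
  have a2 : cst (FL F (Θ p₀)) δ ≤ FL F (Θ p₀) := fun _ hx => hx.1
  have a3 : FL (cst (FL F (Θ p₀)) δ) (Θ p₀) = FL F (Θ p₀) :=
    le_antisymm (FL_le a2 (rat_FL _ _)) (FL_le (a1.trans (le_FL _ _)) (rat_FL _ _))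
  have a4 : ∀ l, Kill (cst (FL F (Θ p₀)) δ) (δ l) := fun l _ hx => hx.2 l
  refine ⟨a1, a3, fun x hx => ?_, ⟨C.le.trans a1, ?_, C.kill, fun x hx => ⟨?_, fun l => ?_⟩,
    fun i => a1 (C.mem i), C.tan, fun x hx e => a1 (C.const x (a3 ▸ hx) e)⟩,
    A.mem, A.ind, a4, A.tan, fun h => A.dim (h.mono a1 le_rfl subset_rfl)⟩
  · by_contra hn
    have i1 : Ind F 1 {x} := ⟨fun _ => x, fun _ => rfl,
      (algebraicIndependent_unique_type_iff (x := fun _ : Fin 1 => x)).2 hn⟩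
    have i2 := h1.tower F _ 1 n {x} _ a1 (Set.singleton_subset_iff.2 hx) i1
      (h3 t a M w Θ PP k _ p₀ n lam δ G A.ind fun l => ⟨a4 l, A.tan l⟩)
    refine A.dim (h1.alg F _ _ (i2.mono le_rfl (by omega) ?_))
    rintro y (rfl | hy)
    exacts [pres_alg hx.1, pres_alg (rat_FL F _ hy)]
  · have := FL_countable C.cnt (Θ p₀)
    exact (Subfield.inclusion a2).injective.countable
  · exact (h2 t a M w Θ PP k F D p₀ g G C.le C.tan).1 (fun i => le_FL F _ (C.mem i))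
      (fun y hy => le_FL F _ (C.pres y hy)) x hx.1
  · have b := (h2 t a M w Θ PP k F _ p₀ _ G C.le
      (G.br D (δ l) p₀ g (lam l) C.kill ((A.kill l).mono C.le) C.tan (A.tan l))).2.1
      (funext fun i => by
        rw [C.kill _ (A.mem l i), A.kill l _ (C.mem i), sub_self]; rfl)
      (fun y hy => by
        rw [Derivation.commutator_apply, A.kill l y hy, A.kill l _ (C.pres y hy), map_zero,
          sub_self]) x hx.1
    rwa [Derivation.commutator_apply, hx.2 l, map_zero, zero_sub, neg_eq_zero] at b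

lemma pres_lie (h1 : SEmb) {F' : Subfield ℂ} (cF : Countable F') {R S : Type} [CommRing R]
    [CommRing S] [Algebra R S] [Algebra.IsIntegral R S] [Algebra F' S]
    (inj : Function.Injective (algebraMap R S)) (hS : Cardinal.mk S ≤ Cardinal.continuum)
    (P : Ideal R) [P.IsPrime] : ∃ ξ' : S →ₐ[F'] ℂ, ∀ u, ξ' (algebraMap R S u) = 0 ↔ u ∈ P := by
  obtain ⟨Q, -, hQ, e⟩ := Ideal.exists_ideal_over_prime_of_isIntegral (S := S) P ⊥
    (by rw [Ideal.comap_bot_of_injective _ inj]; exact bot_le)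
  obtain ⟨φ, hφ⟩ := h1.1 F' cF (S ⧸ Q) (Cardinal.mk_quotient_le.trans hS)
  refine ⟨φ.comp (Ideal.Quotient.mkₐ F' Q), fun u => ?_⟩
  rw [← e, Ideal.mem_comap, ← Ideal.Quotient.eq_zero_iff_mem]
  exact map_eq_zero_iff φ hφ

lemma pres_up (h1 : SEmb) {F F' : Subfield ℂ} (hF : F ≤ F') (cF : Countable F')
    (R : Subalgebra F ℂ) (R' : Subalgebra F' ℂ) (sub : ∀ u ∈ R, u ∈ R')
    (int : ∀ u ∈ R', IsIntegral R u) (ξ : R →ₐ[F] ℂ) :
    ∃ (ξ' : R' →ₐ[F'] ℂ) (η : R →ₐ[F] ℂ), ∀ u : R, η u = ξ' ⟨u, sub _ u.2⟩ ∧ (η u = 0 ↔ ξ u = 0) := by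
  let j : R →+* R' := Subring.inclusion (S := R.toSubring) (T := R'.toSubring) sub
  let _ := j.toAlgebra
  have : IsScalarTower R R' ℂ := IsScalarTower.of_algebraMap_eq fun _ => rfl
  have : Algebra.IsIntegral R R' := ⟨fun u =>
    IsIntegral.tower_bot (B := ℂ) Subtype.val_injective (int u u.2)⟩
  have := RingHom.ker_isPrime ξ
  obtain ⟨ξ', key⟩ := pres_lie h1 cF (R := R) (S := R')
    (fun u v e => Subtype.ext (congrArg (fun z : R' => (z : ℂ)) e))
    ((Cardinal.mk_set_le _).trans Cardinal.mk_complex.le) (RingHom.ker ξ)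
  exact ⟨ξ', { (ξ' : R' →+* ℂ).comp j with commutes' := fun c => ξ'.commutes ⟨c, hF c.2⟩ },
    fun u => ⟨rfl, key u⟩⟩

theorem sUp (h1 : SEmb) (h2 : SInd) : SUp := by
  intro F F' ι x s r hF cF _ alg hs ξ hξ ⟨y, hy, hi⟩
  obtain ⟨ξ', η, key⟩ := pres_up h1 hF cF (RA F x) (RA F' x) (RA_le (S := (RA F' x).toSubring)
    (fun c hc => Subalgebra.algebraMap_mem _ (⟨c, hF hc⟩ : F')) (gen_mem x))
    (RA_le (S := (integralClosure (RA F x) ℂ).toSubring)
      (fun c hc => (alg c hc).isIntegral.tower_top)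
      fun i => isIntegral_algebraMap (x := (⟨x i, gen_mem x i⟩ : RA F x))) ξ
  refine ⟨ξ', fun u hu => (key ⟨u, hs hu⟩).1.symm.trans ((key _).2.2 (hξ _ hu)),
    h2.base F F' r _ hF alg ?_⟩
  choose u hu using hy
  refine ⟨fun i => η (u i), fun i => ⟨_, (key (u i)).1.symm⟩,
    algebraicIndependent_iff.2 fun P hP => algebraicIndependent_iff.1 hi P ?_⟩
  rw [← comp_aeval_apply] at hP
  rw [← funext hu, ← comp_aeval_apply]
  exact (key _).2.1 hP

end Pool.Agent.MP_c69980_ag.H43
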