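import Pool.Agent.MP_c69980_ag.H43.Spec10

/-!
A curve minus a finite set is connected.
-/

set_option autoImplicit false

namespace Pool.Agent.MP_c69980_ag.H43

open Filter Topology Metric

section
variable {L : Type} [Field L] [Algebra ℂ L] {T θ : L} {d : ℕ} {ε ε' : ℝ} {α β : ℂ → Pl L}

/-- The fibres of `T` near `t₀`. -/
def ConnF (T θ : L) (d : ℕ) (t₀ : ℂ) : Prop :=
  ∃ (ε : ℝ) (α : Fin (d + 1) → ℂ → Pl L), 0 < ε ∧
    (∀ j, Arc (α j) (ball 0 ε)) ∧ ∀ s ∈ ball (0 : ℂ) ε,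
      (∀ P : Pl L, (T ∈ P.V ∧ P.val T = t₀ + s) ↔ ∃ j, P = α j s) ∧ (∀ j, θ ∈ (α j s).V) ∧
      Function.Injective fun j => (α j s).val θ

/-- Arcs parametrised by the value of `T`. -/
def ConnS (T : L) (α : ℂ → Pl L) (ε : ℝ) : Prop :=
  0 < ε ∧ Arc α (ball 0 ε) ∧ ∀ s ∈ ball (0 : ℂ) ε, T ∈ (α s).V ∧ (α s).val T = (α 0).val T + s

/-- The places near `P` lie in `A`. -/
def ConnI (T : L) (A : Set (Pl L)) (P : Pl L) : Prop :=
  ∃ α ε, ConnS T α ε ∧ α 0 = P ∧ ∀ᶠ s in 𝓝[≠] 0, α s ∈ A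

theorem connFib {t₀ : ℂ} (h : ConnF T θ d t₀) : ∃ (ε : ℝ) (α : Fin (d + 1) → ℂ → Pl L), 0 < ε ∧
    (∀ j, ConnS T (α j) ε ∧ (α j 0).val T = t₀) ∧
    (∀ s ∈ ball (0 : ℂ) ε, ∀ P : Pl L, T ∈ P.V → P.val T = t₀ + s → ∃ j, P = α j s) ∧
    ∀ (j : Fin (d + 1)) (β : ℂ → Pl L) (ε' : ℝ), 0 < ε' → Arc β (ball 0 ε') → β 0 = α j 0 →
      Tendsto (fun s => (β s).val T - t₀) (𝓝 0) (𝓝 0) ∧
        ∀ᶠ s in 𝓝 0, β s = α j ((β s).val T - t₀) := by
  obtain ⟨ε, α, e0, ha, h⟩ := h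
  have z := mem_ball_self (x := (0 : ℂ)) e0
  have v : ∀ j, ∀ s ∈ ball (0 : ℂ) ε, T ∈ (α j s).V ∧ (α j s).val T = t₀ + s := fun j s hs =>
    ((h s hs).1 _).2 ⟨j, rfl⟩
  have v0 : ∀ j, (α j 0).val T = t₀ := fun j => (v j 0 z).2.trans (add_zero _)
  refine ⟨ε, α, e0, fun j => ⟨⟨e0, ha j, fun s hs => (v0 j).symm ▸ v j s hs⟩, v0 j⟩,
    fun s hs P a b => ((h s hs).1 P).1 ⟨a, b⟩, fun j β ε' e1 hb b0 => ?_⟩
  obtain ⟨m1, a1⟩ := hb 0 (mem_ball_self e1) T (b0 ▸ (v j 0 z).1)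
  obtain ⟨-, a2⟩ := hb 0 (mem_ball_self e1) θ (b0 ▸ (h 0 z).2.1 j)
  have hψ : Tendsto (fun s => (β s).val T - t₀) (𝓝 0) (𝓝 0) := by
    simpa only [b0, v0, sub_self] using a1.continuousAt.tendsto.sub_const t₀
  have ne : ∀ i, ∀ᶠ s in 𝓝 0, i ≠ j → β s ≠ α i ((β s).val T - t₀) := fun i => by
    rcases eq_or_ne i j with rfl | hi
    · simp
    have c := (ha i 0 z θ ((h 0 z).2.1 i)).2.continuousAt.tendsto.comp hψ
    filter_upwards [(a2.continuousAt.tendsto.sub c).eventually_ne (b₂ := 0)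
      (sub_ne_zero.2 fun e => hi ((h 0 z).2.2 (by rw [b0] at e; exact e.symm)))] with s hs _ e
    exact hs (sub_eq_zero.2 (congrArg (fun P : Pl L => P.val θ) e))
  refine ⟨hψ, ?_⟩
  filter_upwards [m1, hψ.eventually (ball_mem_nhds _ e0), eventually_all.2 ne] with s a b c
  obtain ⟨i, hi⟩ := ((h _ b).1 (β s)).1 ⟨a, by ring⟩
  by_contra e
  exact c i (fun u => e (u ▸ hi)) hi

theorem ConnS.ev (h : ConnS T α ε) : ∀ᶠ s in 𝓝 0, (α s).val T - (α 0).val T = s :=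
  mem_of_superset (ball_mem_nhds (0 : ℂ) h.1) fun s hs =>
    sub_eq_of_eq_add' (h.2.2 s hs).2

theorem connUniq (h : ConnF T θ d ((α 0).val T)) (ha : ConnS T α ε) (e1 : 0 < ε')
    (hb : Arc β (ball 0 ε')) (b0 : β 0 = α 0) : ∃ ψ : ℂ → ℂ, Tendsto ψ (𝓝 0) (𝓝 0) ∧
      (∀ s, ψ s = (β s).val T - (α 0).val T) ∧ ∀ᶠ s in 𝓝 0, β s = α (ψ s) := by
  obtain ⟨ε₁, γ, e0, -, h2, h3⟩ := connFib h
  obtain ⟨j, hj⟩ := h2 0 (mem_ball_self e0) (α 0) (ha.2.2 0 (mem_ball_self ha.1)).1 (add_zero _).symm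
  obtain ⟨u, v⟩ := h3 j β ε' e1 hb (b0.trans hj)
  refine ⟨_, u, fun _ => rfl, ?_⟩
  filter_upwards [v, u.eventually ((h3 j α ε ha.1 ha.2.1 hj).2.and ha.ev)] with s a b
  rw [b.1, b.2]
  exact a

theorem connGerm {A : Set (Pl L)} (h : ConnF T θ d ((α 0).val T)) (ha : ConnS T α ε)
    (hA : ConnI T A (α 0)) : ∀ᶠ s in 𝓝[≠] 0, α s ∈ A := by
  obtain ⟨β, ε', hb, b0, hA⟩ := hA
  obtain ⟨ψ, -, u, v⟩ := connUniq h ha hb.1 hb.2.1 b0
  filter_upwards [hA, nhdsWithin_le_nhds (v.and hb.ev)] with s a b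
  rwa [b.1, u, ← b0, b.2] at a

theorem connSpread {A : Set (Pl L)} (ha : ConnS T α ε) (hA : ∀ᶠ s in 𝓝[≠] 0, α s ∈ A) :
    ∀ᶠ s in 𝓝 0, ConnI T A (α s) := by
  filter_upwards [(eventually_nhdsWithin_iff.1 hA).eventually_nhds, ball_mem_nhds _ ha.1]
    with s₁ h1 h2
  have c : ∀ s₀ : ℂ, Tendsto (fun s => s₁ + s) (𝓝 s₀) (𝓝 (s₁ + s₀)) := fun s₀ =>
    (continuous_const.add continuous_id).tendsto s₀
  have m : ∀ s ∈ ball (0 : ℂ) (ε - ‖s₁‖), s₁ + s ∈ ball (0 : ℂ) ε := fun s hs => by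
    rw [mem_ball_zero_iff] at hs ⊢
    linarith [norm_add_le s₁ s]
  refine ⟨fun s => α (s₁ + s), ε - ‖s₁‖, ⟨sub_pos.2 (mem_ball_zero_iff.1 h2), fun s hs x hx => ?_,
    fun s hs => ⟨(ha.2.2 _ (m s hs)).1, ?_⟩⟩, by simp, ?_⟩
  · obtain ⟨u, v⟩ := ha.2.1 _ (m s hs) x hx
    exact ⟨(c s).eventually u, v.comp_of_eq (analyticAt_const.add analyticAt_id) rfl⟩
  · simp only [add_zero]
    rw [(ha.2.2 _ (m s hs)).2, (ha.2.2 _ h2).2, add_assoc]
  · rw [← add_zero s₁] at h1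
    filter_upwards [nhdsWithin_le_nhds ((c 0).eventually h1),
      nhdsNE_le_cofinite 0 (eventually_cofinite_ne (-s₁))] with s a b
    exact a fun e => b (eq_neg_of_add_eq_zero_right e)

theorem connFin (h : FFd L) (x : L) (t : ℂ) (hx : x ≠ algebraMap ℂ L t) :
    {P : Pl L | x ∈ P.V ∧ P.val x = t}.Finite :=
  (h.b.fin (x - algebraMap ℂ L t)).subset fun P hP =>
    (((h.a.val P x hP.1 t).2 hP.2).resolve_left (sub_ne_zero.2 hx)).ne'

theorem connPol (h : FFd L) (x : L) : {P : Pl L | x ∉ P.V}.Finite :=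
  (h.lam_fin x).subset fun P hP e => hP ((h.lam_eq_zero P x).1 e)

theorem connCnt (h : FFd L) (hT : ∀ t, T ≠ algebraMap ℂ L t) {E : Finset ℂ}
    (hE : ∀ t ∉ E, ConnF T θ d t) {A : Set (Pl L)}
    (hA : ∀ P : Pl L, T ∈ P.V → P.val T ∉ E → ConnI T A P) : Aᶜ.Countable := by
  let W : Set ℂ := {t | t ∉ E ∧ ∃ P ∉ A, T ∈ P.V ∧ P.val T = t}
  have hW : W.Countable := by
    have : DiscreteTopology W := discreteTopology_subtype_iff.2 fun t ht => by
      obtain ⟨ε, γ, e0, h1, h2, -⟩ := connFib (hE t ht.1)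
      have c : Tendsto (fun u => u - t) (𝓝[≠] t) (𝓝[≠] 0) :=
        tendsto_nhdsWithin_iff.2 ⟨by
          simpa using ((continuous_id.tendsto t).sub_const t).mono_left nhdsWithin_le_nhds,
          eventually_mem_nhdsWithin.mono fun u hu => sub_ne_zero.2 hu⟩
      have a : ∀ j, ∀ᶠ s in 𝓝[≠] 0, γ j s ∈ A := fun j =>
        connGerm ((h1 j).2.symm ▸ hE t ht.1) (h1 j).1
          (hA _ ((h1 j).1.2.2 0 (mem_ball_self e0)).1 ((h1 j).2.symm ▸ ht.1))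
      rw [inf_principal_eq_bot]
      filter_upwards [c.eventually (eventually_all.2 a),
        c.eventually (nhdsWithin_le_nhds (ball_mem_nhds _ e0))] with u a b
      rintro ⟨-, P, p1, p2, p3⟩
      obtain ⟨j, rfl⟩ := h2 _ b P p2 (by rw [p3]; ring)
      exact p1 (a j)
    exact (TopologicalSpace.separableSpace_iff_countable (α := W)).1 inferInstance
  refine ((connPol h T).countable.union ((hW.union E.countable_toSet).biUnion
    fun t _ => (connFin h T t (hT t)).countable)).mono fun P hP => ?_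
  by_cases p : T ∈ P.V
  · refine Or.inr (Set.mem_biUnion (x := P.val T) ?_ ⟨p, rfl⟩)
    by_cases e : P.val T ∈ E
    · exact Or.inr e
    · exact Or.inl ⟨e, P, hP, p, rfl⟩
  · exact Or.inl p

end

theorem sConn (h1 : SFib) (h2 : SRat) : SConn := by
  classical
  intro L _ _ h S A H
  obtain ⟨T, hT, -⟩ := h.ff
  have hT' : ∀ t, T ≠ algebraMap ℂ L t := fun t e => hT (e ▸ isAlgebraic_algebraMap t)
  obtain ⟨θ, d, E₀, hE₀⟩ := h1 L h T hT
  let E := E₀ ∪ S.image fun P => P.val T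
  have hE : ∀ t ∉ E, ConnF T θ d t := fun t ht => hE₀ t fun e => ht (Finset.mem_union_left _ e)
  have dich : ∀ P : Pl L, T ∈ P.V → P.val T ∉ E → ConnI T A P ∨ ConnI T Aᶜ P := fun P p e => by
    obtain ⟨ε, γ, e0, a, b, -⟩ := connFib (hE _ e)
    obtain ⟨j, hj⟩ := b 0 (mem_ball_self e0) P p (add_zero _).symm
    exact (H (γ j) ε e0 (a j).1.2.1 (fun s hs s' hs' u => add_left_cancel
      (((a j).1.2.2 s hs).2.symm.trans (u ▸ ((a j).1.2.2 s' hs').2)))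
      fun u => e (Finset.mem_union_right _ (Finset.mem_image_of_mem _ (hj ▸ u)))).imp
        (fun u => ⟨_, _, (a j).1, hj.symm, u⟩) fun u => ⟨_, _, (a j).1, hj.symm, u⟩
  have dis : ∀ P : Pl L, P.val T ∉ E → ConnI T Aᶜ P → ¬ ConnI T A P := by
    rintro _ e ⟨α, ε, a, rfl, b⟩ c
    obtain ⟨s, u, v⟩ := (b.and (connGerm (hE _ e) a c)).exists
    exact u v
  have fin : {P : Pl L | ¬ (T ∈ P.V ∧ P.val T ∉ E)}.Finite :=
    ((connPol h T).union (E.finite_toSet.biUnion fun t _ => connFin h T t (hT' t))).subset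
      fun P hP => (em (T ∈ P.V)).elim (fun p => Or.inr (Set.mem_biUnion (x := P.val T)
        (by_contra fun e => hP ⟨p, e⟩) ⟨p, rfl⟩)) Or.inl
  have cst : ∀ (P : Pl L) (c : ℂ), P.val (algebraMap ℂ L c) = c := fun P => (h.a.hom P).choose_spec.2
  obtain ⟨x, hx⟩ := h2 L h fin.toFinset (fun P => if ConnI T A P then 1 else 0) 3
    (fun i => algebraMap ℂ L (![0, -1, 1] i)) (fun β ε' e1 hb b0 => by
      obtain ⟨p, e⟩ : T ∈ (β 0).V ∧ (β 0).val T ∉ E := by simpa using b0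
      rcases dich _ p e with ⟨α, ε, a, a0, b⟩ | ⟨α, ε, a, a0, b⟩
      · obtain ⟨ψ, u, -, v⟩ := connUniq (a0 ▸ hE _ e) a e1 hb a0.symm
        refine (analyticAt_const (v := (1 : ℂ))).congr ?_
        filter_upwards [v, u.eventually (connSpread a b)] with s v w
        rw [v, if_pos w]
      · obtain ⟨ψ, u, -, v⟩ := connUniq (a0 ▸ hE _ e) a e1 hb a0.symm
        refine (analyticAt_const (v := (0 : ℂ))).congr ?_
        filter_upwards [v, u.eventually (connSpread a b),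
          (hb 0 (mem_ball_self e1) T p).2.continuousAt.eventually
            (E.finite_toSet.isClosed.isOpen_compl.mem_nhds e)] with s v w z
        rw [if_neg (dis _ z (v ▸ w))])
    (fun e => by simpa using congrFun e 2) (Eventually.of_forall fun P => by
      simp only [cst, Fin.sum_univ_three]
      split_ifs <;> simp)
  have hx' : ∀ P : Pl L, T ∈ P.V → P.val T ∉ E →
      x ∈ P.V ∧ P.val x = if ConnI T A P then 1 else 0 := fun P p e => hx P (by simp [p, e])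
  by_cases x0 : x = algebraMap ℂ L 0
  · refine Or.inl (compl_compl A ▸ connCnt h hT' hE fun P p e => (dich P p e).resolve_left fun u => ?_)
    have := (hx' P p e).2
    rw [x0, cst, if_pos u] at this
    exact zero_ne_one this
  by_cases x1 : x = algebraMap ℂ L 1
  · refine Or.inr (connCnt h hT' hE fun P p e => by_contra fun u => ?_)
    have := (hx' P p e).2
    rw [x1, cst, if_neg u] at this
    exact one_ne_zero this
  refine Or.inl ((fin.union ((connFin h x 0 x0).union (connFin h x 1 x1))).countable.mono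
    fun P _ => (em (T ∈ P.V ∧ P.val T ∉ E)).elim (fun p => Or.inr ?_) Or.inl)
  obtain ⟨u, v⟩ := hx' P p.1 p.2
  split_ifs at v
  · exact Or.inr ⟨u, v⟩
  · exact Or.inl ⟨u, v⟩

end Pool.Agent.MP_c69980_ag.H43
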